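import Mathlib

/-!
# Friends-and-strangers graphs and brooms
-/

set_option autoImplicit false

namespace Q102.FSB

/-- The friends-and-strangers graph `FS(X, Y)`: its vertices are the bijections from the vertices
of `X` (positions) to the vertices of `Y` (persons); `σ` and `τ` are adjacent if they differ by
the exchange of the persons at two positions `a`, `b` which are adjacent in `X`, these two persons
being adjacent in `Y`. -/
def FS {V W : Type} (X : SimpleGraph V) (Y : SimpleGraph W) : SimpleGraph (V ≃ W) where
  Adj σ τ := ∃ a b : V, X.Adj a b ∧ Y.Adj (σ a) (σ b) ∧ τ a = σ b ∧ τ b = σ a ∧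
    ∀ v, v ≠ a → v ≠ b → τ v = σ v
  symm := by
    constructor
    rintro σ τ ⟨a, b, h1, h2, h3, h4, h5⟩
    refine ⟨a, b, h1, ?_, h4.symm, h3.symm, fun v ha hb => (h5 v ha hb).symm⟩
    rw [h3, h4]
    exact h2.symm
  loopless := by
    constructor
    rintro σ ⟨a, b, h1, -, h3, -⟩
    exact h1.ne (σ.injective h3)

/-- The broom with `n` vertices and handle of length `k`: the vertices `0, 1, ..., k` form a path in
this order, and all the other vertices `k + 1, ..., n - 1` are leaves attached to the vertex `0`. -/
def broom (n k : ℕ) : SimpleGraph (Fin n) where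
  Adj a b := (a.val = b.val + 1 ∧ a.val ≤ k) ∨ (b.val = a.val + 1 ∧ b.val ≤ k) ∨
    (a.val = 0 ∧ k < b.val) ∨ (b.val = 0 ∧ k < a.val)
  symm := by
    constructor
    intro a b h
    rcases h with h | h | h | h
    · exact Or.inr (Or.inl h)
    · exact Or.inl h
    · exact Or.inr (Or.inr (Or.inr h))
    · exact Or.inr (Or.inr (Or.inl h))
  loopless := by
    constructor
    intro a h
    rcases h with h | h | h | h <;> omega

end Q102.FSB
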