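import Pool.Agent.Q102.FSB.Defs
import Pool.Agent.TH757.FSPlane

/-!
# Friends-and-strangers graphs of brooms with exponential diameter
-/

set_option autoImplicit false

namespace Q102.FSB

open Pool.Agent.TH757.FSLol SimpleGraph

/-! ### the broom is a tree -/

/-- a graph given by a parent function is a tree -/
theorem isTree_of_parent {V : Type} [Finite V] (G : SimpleGraph V) (ρ : V) (par : V → V)
    (rk : V → ℕ) (hrk : ∀ v, v ≠ ρ → rk (par v) < rk v)
    (hadj : ∀ a b, G.Adj a b ↔ (a ≠ ρ ∧ par a = b) ∨ (b ≠ ρ ∧ par b = a)) : G.IsTree := by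
  classical
  rw [isTree_iff_connected_and_card]
  constructor
  · have hreach : ∀ n : ℕ, ∀ v, rk v < n → G.Reachable ρ v := by
      intro n
      induction n with
      | zero => intro v h; omega
      | succ n ih =>
        intro v hv
        by_cases hρ : v = ρ
        · rw [hρ]
        · have h1 := hrk v hρ
          have h2 := ih (par v) (by omega)
          have h3 : G.Adj (par v) v := (hadj _ _).mpr (Or.inr ⟨hρ, rfl⟩)
          exact h2.trans h3.reachable
    have : Nonempty V := ⟨ρ⟩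
    refine ⟨fun a b => ?_⟩
    exact (hreach _ a (Nat.lt_succ_self _)).symm.trans (hreach _ b (Nat.lt_succ_self _))
  · have hmem : ∀ v : {v : V // v ≠ ρ}, s(v.1, par v.1) ∈ G.edgeSet := by
      intro v
      rw [mem_edgeSet, hadj]
      exact Or.inl ⟨v.2, rfl⟩
    let g : {v : V // v ≠ ρ} → G.edgeSet := fun v => ⟨s(v.1, par v.1), hmem v⟩
    have hg : Function.Bijective g := by
      constructor
      · intro v w h
        have h' : s(v.1, par v.1) = s(w.1, par w.1) := congrArg Subtype.val h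
        rw [Sym2.eq_iff] at h'
        rcases h' with ⟨h1, -⟩ | ⟨h1, h2⟩
        · exact Subtype.ext h1
        · have e1 := hrk v.1 v.2
          have e2 := hrk w.1 w.2
          rw [h2] at e1
          rw [← h1] at e2
          omega
      · rintro ⟨e, he⟩
        induction e using Sym2.ind with
        | _ a b =>
          rw [mem_edgeSet, hadj] at he
          rcases he with ⟨h1, h2⟩ | ⟨h1, h2⟩
          · refine ⟨⟨a, h1⟩, Subtype.ext ?_⟩
            show s(a, par a) = s(a, b)
            rw [h2]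
          · refine ⟨⟨b, h1⟩, Subtype.ext ?_⟩
            show s(b, par b) = s(a, b)
            rw [h2, Sym2.eq_swap]
    rw [← Nat.card_eq_of_bijective g hg]
    have : Nat.card V = Nat.card (Option {v : V // v ≠ ρ}) :=
      Nat.card_congr (Equiv.optionSubtypeNe ρ).symm
    rw [this, Finite.card_option]

theorem broom_isTree {n k : ℕ} (hn : 0 < n) : (broom n k).IsTree := by
  apply isTree_of_parent (broom n k) ⟨0, hn⟩
    (fun v => if v.val ≤ k then ⟨v.val - 1, by omega⟩ else ⟨0, hn⟩) (fun v => v.val)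
  · intro v hv
    have h0 : v.val ≠ 0 := fun h => hv (Fin.ext h)
    by_cases h : v.val ≤ k
    · simp only [h, if_true]
      show v.val - 1 < v.val
      omega
    · simp only [h, if_false]
      show 0 < v.val
      omega
  · intro a b
    have ha : a ≠ ⟨0, hn⟩ ↔ a.val ≠ 0 := by
      rw [Ne, Fin.ext_iff]
    have hb : b ≠ ⟨0, hn⟩ ↔ b.val ≠ 0 := by
      rw [Ne, Fin.ext_iff]
    have key : ∀ a b : Fin n, ((if a.val ≤ k then (⟨a.val - 1, by omega⟩ : Fin n)
        else ⟨0, hn⟩) = b) ↔ (if a.val ≤ k then a.val - 1 else 0) = b.val := by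
      intro a b
      rw [Fin.ext_iff]
      split_ifs <;> rfl
    rw [ha, hb, key a b, key b a]
    show ((a.val = b.val + 1 ∧ a.val ≤ k) ∨ (b.val = a.val + 1 ∧ b.val ≤ k) ∨
      (a.val = 0 ∧ k < b.val) ∨ (b.val = 0 ∧ k < a.val)) ↔ _
    split_ifs <;> omega

/-! ### moving the persons of the handle -/

variable {n : ℕ}

theorem broom_le_lol (k : ℕ) {a b : Fin n} (h : (broom n k).Adj a b) : (lol n k).Adj a b := by
  have hne := h.ne
  rcases h with h | h | h | h
  · exact ⟨hne, Or.inl h⟩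
  · exact ⟨hne, Or.inr (Or.inl h)⟩
  · exact ⟨hne, Or.inr (Or.inr ⟨Or.inl h.1, Or.inr h.2⟩)⟩
  · exact ⟨hne, Or.inr (Or.inr ⟨Or.inr h.2, Or.inl h.1⟩)⟩

theorem step_lol {X : SimpleGraph (Fin n)} {k : ℕ} {σ τ : Equiv.Perm (Fin n)}
    (h : Step X (broom n k) σ τ) : Step X (lol n k) σ τ := by
  obtain ⟨a, b, h1, h2, h3⟩ := h
  exact ⟨a, b, h1, broom_le_lol k h2, h3⟩

/-- person `i` can be brought to `w` with the persons `i+1, ..., k` left in place -/
theorem place (X : SimpleGraph (Fin n)) (k : ℕ) (hk : k < n) (hX : Robust X k) :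
    ∀ i : ℕ, i ≤ k → ∀ (σ : Equiv.Perm (Fin n)) (w : Fin n),
      ¬ (i < (σ w).val ∧ (σ w).val ≤ k) →
      ∃ τ, Relation.ReflTransGen (Step X (broom n k)) σ τ ∧ (τ w).val = i ∧
        ∀ v, i < (σ v).val → (σ v).val ≤ k → τ v = σ v := by
  intro i
  induction i with
  | zero =>
    intro _ σ w hw
    have hn : 0 < n := by omega
    set x : Fin n := σ.symm ⟨0, hn⟩ with hx
    have hσx : σ x = ⟨0, hn⟩ := by rw [hx]; simp
    have hxS : x ∉ occ k 0 σ := by
      rw [mem_occ, hσx]
      simp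
    have hwS : w ∉ occ k 0 σ := by
      rw [mem_occ]
      exact hw
    have hpath := hX _ (occ_card k 0 σ) x w hxS hwS
    clear hwS hw
    induction hpath with
    | refl =>
      exact ⟨σ, Relation.ReflTransGen.refl, by rw [hσx], fun v _ _ => rfl⟩
    | @tail b c _ hbc ih2 =>
      obtain ⟨hadj, hbS, hcS⟩ := hbc
      obtain ⟨τ, hτ1, hτ2, hτ3⟩ := ih2
      have hc0 : (τ c).val ≠ 0 := by
        intro h
        have : τ c = τ b := Fin.ext (by rw [h, hτ2])
        exact hadj.ne (τ.injective this).symm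
      have hck : k < (τ c).val := by
        by_contra h
        set u : Fin n := σ.symm (τ c) with hu
        have hσu : σ u = τ c := by rw [hu]; simp
        have h4 : τ u = σ u := hτ3 u (by rw [hσu]; omega) (by rw [hσu]; omega)
        rw [hσu] at h4
        have huc : u = c := τ.injective h4
        rw [huc] at hσu
        apply hcS
        rw [mem_occ, hσu]
        omega
      refine ⟨τ * Equiv.swap b c, ?_, ?_, ?_⟩
      · exact hτ1.tail ⟨b, c, hadj, Or.inr (Or.inr (Or.inl ⟨hτ2, hck⟩)), rfl⟩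
      · rw [Equiv.Perm.mul_apply, Equiv.swap_apply_right, hτ2]
      · intro v hv1 hv2
        have hvb : v ≠ b := by
          intro h
          apply hbS
          rw [mem_occ, ← h]
          exact ⟨hv1, hv2⟩
        have hvc : v ≠ c := by
          intro h
          apply hcS
          rw [mem_occ, ← h]
          exact ⟨hv1, hv2⟩
        rw [Equiv.Perm.mul_apply, Equiv.swap_apply_of_ne_of_ne hvb hvc, hτ3 v hv1 hv2]
  | succ i ih =>
    intro hik σ w hw
    have hi1 : i + 1 < n := by omega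
    set x : Fin n := σ.symm ⟨i + 1, hi1⟩ with hx
    have hσx : σ x = ⟨i + 1, hi1⟩ := by rw [hx]; simp
    have hxS : x ∉ occ k (i + 1) σ := by
      rw [mem_occ, hσx]
      simp
    have hwS : w ∉ occ k (i + 1) σ := by
      rw [mem_occ]
      exact hw
    have hpath := hX _ (occ_card k (i + 1) σ) x w hxS hwS
    clear hwS hw
    induction hpath with
    | refl =>
      exact ⟨σ, Relation.ReflTransGen.refl, by rw [hσx], fun v _ _ => rfl⟩
    | @tail b c _ hbc ih2 =>
      obtain ⟨hadj, hbS, hcS⟩ := hbc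
      obtain ⟨τ, hτ1, hτ2, hτ3⟩ := ih2
      -- bring person i to c
      have hcτ : ¬ (i < (τ c).val ∧ (τ c).val ≤ k) := by
        rintro ⟨h1, h2⟩
        by_cases h3 : (τ c).val = i + 1
        · have : τ c = τ b := Fin.ext (by rw [h3, hτ2])
          exact hadj.ne (τ.injective this).symm
        · set u : Fin n := σ.symm (τ c) with hu
          have hσu : σ u = τ c := by rw [hu]; simp
          have h4 : τ u = σ u := hτ3 u (by rw [hσu]; omega) (by rw [hσu]; exact h2)
          rw [hσu] at h4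
          have huc : u = c := τ.injective h4
          rw [huc] at hσu
          apply hcS
          rw [mem_occ, hσu]
          omega
      obtain ⟨ρ, hρ1, hρ2, hρ3⟩ := ih (by omega) τ c hcτ
      have hρb : ρ b = τ b := hρ3 b (by rw [hτ2]; omega) (by rw [hτ2]; exact hik)
      refine ⟨ρ * Equiv.swap b c, ?_, ?_, ?_⟩
      · refine (hτ1.trans hρ1).tail ⟨b, c, hadj, Or.inl ⟨?_, ?_⟩, rfl⟩
        · rw [hρb, hτ2, hρ2]
        · rw [hρb, hτ2]; exact hik
      · rw [Equiv.Perm.mul_apply, Equiv.swap_apply_right, hρb, hτ2]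
      · intro v hv1 hv2
        have h5 : τ v = σ v := hτ3 v hv1 hv2
        have h6 : ρ v = τ v := hρ3 v (by rw [h5]; omega) (by rw [h5]; exact hv2)
        have hvb : v ≠ b := by
          intro h
          apply hbS
          rw [mem_occ, ← h]
          exact ⟨hv1, hv2⟩
        have hvc : v ≠ c := by
          intro h
          apply hcS
          rw [mem_occ, ← h]
          exact ⟨hv1, hv2⟩
        rw [Equiv.Perm.mul_apply, Equiv.swap_apply_of_ne_of_ne hvb hvc, h6, h5]

/-! ### exchanging the roles of the two graphs -/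

theorem step_of_adj {T X : SimpleGraph (Fin n)} {σ τ : Fin n ≃ Fin n} (h : (FS T X).Adj σ τ) :
    Step X T σ.symm τ.symm := by
  obtain ⟨a, b, h1, h2, h3, h4, h5⟩ := h
  refine ⟨σ a, σ b, h2, by simpa using h1, ?_⟩
  ext v : 1
  obtain ⟨u, rfl⟩ := τ.surjective v
  rw [Equiv.symm_apply_apply, Equiv.Perm.mul_apply]
  by_cases hua : u = a
  · rw [hua, h3, Equiv.swap_apply_right, Equiv.symm_apply_apply]
  · by_cases hub : u = b
    · rw [hub, h4, Equiv.swap_apply_left, Equiv.symm_apply_apply]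
    · rw [h5 u hua hub, Equiv.swap_apply_of_ne_of_ne, Equiv.symm_apply_apply]
      · exact fun h => hua (σ.injective h)
      · exact fun h => hub (σ.injective h)

theorem adj_of_step {T X : SimpleGraph (Fin n)} {σ τ : Equiv.Perm (Fin n)}
    (h : Step X T σ τ) : (FS T X).Adj σ.symm τ.symm := by
  obtain ⟨a, b, h1, h2, h3⟩ := h
  have e1 : τ a = σ b := by rw [h3, Equiv.Perm.mul_apply, Equiv.swap_apply_left]
  have e2 : τ b = σ a := by rw [h3, Equiv.Perm.mul_apply, Equiv.swap_apply_right]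
  refine ⟨σ a, σ b, h2, by simpa using h1, ?_, ?_, ?_⟩
  · rw [Equiv.symm_apply_apply, ← e2, Equiv.symm_apply_apply]
  · rw [Equiv.symm_apply_apply, ← e1, Equiv.symm_apply_apply]
  · intro v hva hvb
    obtain ⟨u, rfl⟩ := σ.surjective v
    have hua : u ≠ a := fun h => hva (by rw [h])
    have hub : u ≠ b := fun h => hvb (by rw [h])
    have e3 : τ u = σ u := by
      rw [h3, Equiv.Perm.mul_apply, Equiv.swap_apply_of_ne_of_ne hua hub]
    rw [Equiv.symm_apply_apply, ← e3, Equiv.symm_apply_apply]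

theorem reachable_of_steps {T X : SimpleGraph (Fin n)} {σ τ : Equiv.Perm (Fin n)}
    (h : Relation.ReflTransGen (Step X T) σ τ) : (FS T X).Reachable σ.symm τ.symm := by
  induction h with
  | refl => exact Reachable.refl _
  | tail _ hbc ih => exact ih.trans (adj_of_step hbc).reachable

/-- the exponential lower bound -/
theorem exists_far (p : ℕ) [Fact p.Prime] (hp : 2 < p) :
    ∃ (Y : SimpleGraph (Fin (2 * p ^ 2))) (σ τ : Fin (2 * p ^ 2) ≃ Fin (2 * p ^ 2)),
      (FS (broom (2 * p ^ 2) (p - 1)) Y).Reachable σ τ ∧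
      2 ^ (p - 2) ≤ (FS (broom (2 * p ^ 2) (p - 1)) Y).dist σ τ := by
  obtain ⟨X, hG, hR, x, w, hxw, hna⟩ := exists_graph p hp
  have hk : p - 1 < 2 * p ^ 2 := by nlinarith [Nat.sub_le p 1]
  let P : Fin (2 * p ^ 2) := ⟨p - 1, hk⟩
  obtain ⟨τ, hτ1, hτ2, -⟩ := place X (p - 1) hk hR (p - 1) le_rfl (Equiv.swap x P) w
    (by omega)
  have hreach := reachable_of_steps hτ1
  refine ⟨X, _, _, hreach, ?_⟩
  obtain ⟨W, hW⟩ := hreach.exists_walk_length_eq_dist
  rw [← hW]
  have hp1 : p - 1 = (p - 2) + 1 := by omega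
  have hs : ∀ t, (W.getVert (t + 1)).symm = (W.getVert t).symm ∨
      Step X (lol _ ((p - 2) + 1)) (W.getVert t).symm (W.getVert (t + 1)).symm := by
    intro t
    rcases Nat.lt_or_ge t W.length with h | h
    · right
      rw [← hp1]
      exact step_lol (step_of_adj (W.adj_getVert_succ h))
    · left
      rw [W.getVert_of_length_le h, W.getVert_of_length_le (by omega)]
  refine top_cost hG (p - 2) (fun t => (W.getVert t).symm) hs W.length x w ?_ ?_ hxw hna
  · simp only [Walk.getVert_zero, Equiv.symm_symm, Equiv.swap_apply_left]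
    exact hp1
  · simp only [Walk.getVert_length, Equiv.symm_symm]
    rw [hτ2]
    exact hp1

/-- exponential beats polynomial along the primes -/
theorem arith (m N : ℕ) : ∃ p : ℕ, p.Prime ∧ 2 < p ∧ N ≤ p ∧ (2 * p ^ 2) ^ m < 2 ^ (p - 2) := by
  have h1 := isLittleO_pow_const_const_pow_of_one_lt (R := ℝ) (2 * m) (r := 2) (by norm_num)
  have hc : (0 : ℝ) < 1 / (8 * 2 ^ m) := by positivity
  have h2 := h1.def hc
  rw [Filter.eventually_atTop] at h2
  obtain ⟨M, hM⟩ := h2
  obtain ⟨p, hp1, hp2⟩ := Nat.exists_infinite_primes (M + N + 3)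
  refine ⟨p, hp2, by omega, by omega, ?_⟩
  have h3 := hM p (by omega)
  rw [Real.norm_of_nonneg (by positivity), Real.norm_of_nonneg (by positivity)] at h3
  have h4 : 8 * (2 : ℝ) ^ m * (p : ℝ) ^ (2 * m) ≤ 2 ^ p := by
    have h5 := mul_le_mul_of_nonneg_left h3 (show (0 : ℝ) ≤ 8 * 2 ^ m by positivity)
    have h6 : 8 * (2 : ℝ) ^ m * (1 / (8 * 2 ^ m) * 2 ^ p) = 2 ^ p := by
      field_simp
    rw [h6] at h5
    exact h5
  have h7 : 8 * 2 ^ m * p ^ (2 * m) ≤ 2 ^ p := by exact_mod_cast h4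
  have h8 : (2 : ℕ) ^ p = 4 * 2 ^ (p - 2) := by
    have : p = (p - 2) + 2 := by omega
    conv_lhs => rw [this]
    rw [pow_add]
    ring
  have h9 : (2 * p ^ 2) ^ m = 2 ^ m * p ^ (2 * m) := by
    rw [pow_mul, ← mul_pow]
  have h10 : 0 < 2 ^ (p - 2) := by positivity
  have h11 : 8 * 2 ^ m * p ^ (2 * m) = 8 * (2 * p ^ 2) ^ m := by rw [h9]; ring
  omega

theorem exp_bound {p : ℕ} (hp : 2 < p) :
    Real.exp (1 / 10 * Real.sqrt ((2 * p ^ 2 : ℕ) : ℝ)) ≤ 2 ^ (p - 2) := by
  have hp3 : (3 : ℝ) ≤ p := by exact_mod_cast hp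
  have h1 : Real.sqrt ((2 * p ^ 2 : ℕ) : ℝ) ≤ 3 / 2 * p := by
    rw [Real.sqrt_le_left (by positivity)]
    push_cast
    nlinarith
  have h2 : (1 / 10 * Real.sqrt ((2 * p ^ 2 : ℕ) : ℝ)) ≤ ((p - 2 : ℕ) : ℝ) * Real.log 2 := by
    have h3 : ((p - 2 : ℕ) : ℝ) = p - 2 := by
      rw [Nat.cast_sub (by omega)]; norm_num
    have h4 := Real.log_two_gt_d9
    have h5 : (0 : ℝ) ≤ (p : ℝ) - 2 := by linarith
    rw [h3]
    nlinarith
  calc Real.exp (1 / 10 * Real.sqrt ((2 * p ^ 2 : ℕ) : ℝ))
      ≤ Real.exp (((p - 2 : ℕ) : ℝ) * Real.log 2) := Real.exp_le_exp.2 h2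
    _ = 2 ^ (p - 2) := by
      rw [Real.exp_nat_mul, Real.exp_log (by norm_num)]

end Q102.FSB
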